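import Mathlib

/-!
# The permanent of `[i - l + δ_{il}]` of order `p` is `4 p + 1` modulo `p²`

Let `W(x) = ∑_σ ∏_{σ(i) ≠ i} (x_{σ(i)} - x_i)` for `x : ℤ/p → ℤ/p²`; the permanent in question is
`W(x)` for `x_i = i`. The proof has three steps.

* `W(x)` does not change when `x_i` is replaced by the Teichmüller representative `i^p`: the first
  order term vanishes since modulo `p` the numbers `x_i - x_l` depend on `i - l` only.
* Teichmüller representatives are permuted by multiplication with a Teichmüller unit, so that in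
  `W` only permutations whose number of non-fixed points is divisible by `p - 1` matter.
* The contribution of the permutations with one fixed point is a sum of permanents of matrices of
  rank two, which are computed with elementary symmetric functions.
-/

set_option autoImplicit false

open Finset Equiv

namespace Pool.Agent.Results.MP_73edb1_nt.PermanentModSq

section General

variable {α : Type*} [DecidableEq α] [Fintype α] {R : Type*} [CommRing R]

/-- The entry of the matrix at `(j, i)`. -/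
def ent (x : α → R) (i j : α) : R := if j = i then 1 else x j - x i

/-- The term of a permutation. -/
def w (x : α → R) (σ : Perm α) : R := ∏ i, ent x i (σ i)

/-- The permanent. -/
def W (x : α → R) : R := ∑ σ : Perm α, w x σ

lemma w_comp (e : Perm α) (x : α → R) (σ : Perm α) : w (x ∘ e) σ = w x (e * σ * e⁻¹) := by
  unfold w
  rw [← Equiv.prod_comp e fun j => ent x j ((e * σ * e⁻¹) j)]
  refine prod_congr rfl fun i _ => ?_
  simp [ent]

lemma W_comp (e : Perm α) (x : α → R) : W (x ∘ e) = W x := by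
  unfold W
  simp_rw [w_comp e x]
  exact Equiv.sum_comp (MulAut.conj e).toEquiv (w x)

lemma prod_add_eps {ι : Type*} [DecidableEq ι] (s : Finset ι) (a b : ι → R) {ε : R}
    (hε : ε * ε = 0) :
    ∏ i ∈ s, (a i + ε * b i) = ∏ i ∈ s, a i + ε * ∑ i ∈ s, b i * ∏ k ∈ s.erase i, a k := by
  induction s using Finset.induction_on with
  | empty => simp
  | insert j s hj ih =>
    rw [prod_insert hj, ih, prod_insert hj, sum_insert hj, erase_insert hj]
    have h : ∑ i ∈ s, b i * ∏ k ∈ (insert j s).erase i, a k =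
        a j * ∑ i ∈ s, b i * ∏ k ∈ s.erase i, a k := by
      rw [mul_sum]
      refine sum_congr rfl fun i hi => ?_
      have hij : j ≠ i := fun h => hj (h ▸ hi)
      rw [erase_insert_of_ne hij, prod_insert (fun h => hj (mem_of_mem_erase h))]
      ring
    rw [h]
    linear_combination (b j * ∑ i ∈ s, b i * ∏ k ∈ s.erase i, a k) * hε

lemma w_smul (c : R) (x : α → R) (σ : Perm α) :
    w (fun k => c * x k) σ = c ^ #{i | σ i ≠ i} * w x σ := by
  unfold w
  have h : ∀ i, ent (fun k => c * x k) i (σ i) =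
      (if σ i ≠ i then c else 1) * ent x i (σ i) := by
    intro i
    unfold ent
    by_cases h : σ i = i
    · simp [h]
    · simp [h]
      ring
  simp_rw [h]
  rw [prod_mul_distrib]
  congr 1
  rw [prod_ite, prod_const_one, mul_one, prod_const]

end General

/-! ### The first order term -/

section FirstOrder

variable {p : ℕ} [Fact p.Prime]

/-- The product of the entries outside `i`. -/
def Q (i : ZMod p) (σ : Perm (ZMod p)) : ZMod p :=
  ∏ k ∈ univ.erase i, ent (fun j : ZMod p => j) k (σ k)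

lemma Q_conj (i : ZMod p) (σ : Perm (ZMod p)) :
    Q i (Equiv.addRight i * σ * (Equiv.addRight i)⁻¹) = Q 0 σ := by
  unfold Q
  have h : (univ.erase i : Finset (ZMod p)) = (univ.erase 0).map (Equiv.addRight i).toEmbedding := by
    rw [Finset.map_erase]
    simp
  rw [h, prod_map]
  refine prod_congr rfl fun k _ => ?_
  simp [ent]

lemma first_order (τ : ZMod p → ZMod p) :
    ∑ σ : Perm (ZMod p), ∑ i, (τ (σ i) - τ i) * Q i σ = 0 := by
  have h1 : ∀ i : ZMod p, ∑ σ : Perm (ZMod p), (τ (σ i) - τ i) * Q i σ =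
      ∑ σ : Perm (ZMod p), (τ (σ 0 + i) - τ i) * Q 0 σ := by
    intro i
    rw [← Equiv.sum_comp (MulAut.conj (Equiv.addRight i)).toEquiv]
    refine sum_congr rfl fun σ _ => ?_
    have h2 : (MulAut.conj (Equiv.addRight i)).toEquiv σ =
        Equiv.addRight i * σ * (Equiv.addRight i)⁻¹ := rfl
    rw [h2, Q_conj]
    simp
  rw [sum_comm]
  simp_rw [h1]
  rw [sum_comm]
  refine sum_eq_zero fun σ _ => ?_
  have h3 : ∑ x, τ (σ 0 + x) = ∑ x, τ x := Equiv.sum_comp (Equiv.addLeft (σ 0)) τ
  rw [← sum_mul, sum_sub_distrib, h3, sub_self, zero_mul]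

end FirstOrder

/-! ### Teichmüller representatives modulo `p²` -/

section Teich

variable (p : ℕ) [hp : Fact p.Prime]

/-- The ring `ℤ/p²`. -/
abbrev R2 : Type := ZMod (p ^ 2)

/-- Reduction modulo `p`. -/
def π : R2 p →+* ZMod p := ZMod.castHom (dvd_pow_self p two_ne_zero) (ZMod p)

/-- The Teichmüller representative. -/
def χ (a : ZMod p) : R2 p := (a.val : R2 p) ^ p

instance : NeZero (p ^ 2) := ⟨pow_ne_zero 2 hp.out.ne_zero⟩

lemma mul_eq_zero_of_π {y : R2 p} (h : π p y = 0) : (p : R2 p) * y = 0 := by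
  have h1 : (y.val : ZMod p) = 0 := by
    have h2 : π p ((y.val : ℕ) : R2 p) = 0 := by rw [ZMod.natCast_zmod_val, h]
    rwa [map_natCast] at h2
  rw [ZMod.natCast_eq_zero_iff] at h1
  obtain ⟨c, hc⟩ := h1
  have h3 : (p : R2 p) * y = ((p ^ 2 * c : ℕ) : R2 p) := by
    rw [← ZMod.natCast_zmod_val y, hc]
    push_cast
    ring
  rw [h3, Nat.cast_mul, ZMod.natCast_self, zero_mul]

lemma p_mul_p : (p : R2 p) * p = 0 := by
  have : ((p ^ 2 : ℕ) : R2 p) = 0 := ZMod.natCast_self _
  rw [← this]
  push_cast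
  ring

lemma isUnit_of_π {y : R2 p} (h : π p y ≠ 0) : IsUnit y := by
  have h1 : π p ((y.val : ℕ) : R2 p) ≠ 0 := by rwa [ZMod.natCast_zmod_val]
  rw [map_natCast, Ne, ZMod.natCast_eq_zero_iff] at h1
  rw [← ZMod.natCast_zmod_val y, ZMod.isUnit_iff_coprime]
  exact Nat.Coprime.pow_right 2 ((Nat.Prime.coprime_iff_not_dvd hp.out).2 h1).symm

lemma χ_natCast (n : ℕ) : χ p (n : ZMod p) = (n : R2 p) ^ p := by
  have h1 : (p : ℤ) ∣ (((n : ZMod p).val : ℕ) : ℤ) - n := by
    rw [← ZMod.intCast_zmod_eq_zero_iff_dvd]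
    push_cast
    rw [ZMod.natCast_zmod_val, sub_self]
  have h2 := dvd_sub_pow_of_dvd_sub h1 1
  rw [pow_one] at h2
  have h3 : (((((n : ZMod p).val : ℕ) : ℤ) ^ p - (n : ℤ) ^ p : ℤ) : R2 p) = 0 := by
    rw [ZMod.intCast_zmod_eq_zero_iff_dvd]
    exact_mod_cast h2
  push_cast at h3
  exact sub_eq_zero.1 h3

lemma χ_mul (a b : ZMod p) : χ p (a * b) = χ p a * χ p b := by
  have h : a * b = ((a.val * b.val : ℕ) : ZMod p) := by
    push_cast
    rw [ZMod.natCast_zmod_val, ZMod.natCast_zmod_val]
  rw [h, χ_natCast, Nat.cast_mul, mul_pow]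
  rfl

lemma χ_zero : χ p 0 = 0 := by
  rw [χ, ZMod.val_zero, Nat.cast_zero, zero_pow hp.out.ne_zero]

lemma χ_one : χ p 1 = 1 := by
  have h := χ_natCast p 1
  rwa [Nat.cast_one, Nat.cast_one, one_pow] at h

lemma χ_pow (a : ZMod p) (m : ℕ) : χ p (a ^ m) = χ p a ^ m := by
  induction m with
  | zero => rw [pow_zero, pow_zero, χ_one]
  | succ m ih => rw [pow_succ, pow_succ, χ_mul, ih]

lemma π_χ (a : ZMod p) : π p (χ p a) = a := by
  rw [χ, map_pow, map_natCast, ZMod.natCast_zmod_val, ZMod.pow_card]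

/-- A unit whose Teichmüller powers are far from one. -/
lemma exists_gen : ∃ g : (ZMod p)ˣ, ∀ m : ℕ, ¬ (p - 1) ∣ m → IsUnit (χ p (g : ZMod p) ^ m - 1) := by
  obtain ⟨g, hg⟩ := IsCyclic.exists_generator (α := (ZMod p)ˣ)
  refine ⟨g, fun m hm => isUnit_of_π p ?_⟩
  rw [map_sub, map_pow, π_χ, map_one, sub_ne_zero]
  intro h
  apply hm
  have h1 : g ^ m = 1 := Units.ext (by push_cast; exact h)
  have h2 := orderOf_dvd_of_pow_eq_one h1
  rwa [orderOf_eq_card_of_forall_mem_zpowers hg, Nat.card_eq_fintype_card, ZMod.card_units] at h2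

/-- The sum of the powers of Teichmüller units. -/
lemma sum_units_pow (m : ℕ) :
    ∑ a : (ZMod p)ˣ, χ p (a : ZMod p) ^ m = if (p - 1) ∣ m then ((p - 1 : ℕ) : R2 p) else 0 := by
  split_ifs with h
  · obtain ⟨c, rfl⟩ := h
    have h1 : ∀ a : (ZMod p)ˣ, χ p (a : ZMod p) ^ ((p - 1) * c) = 1 := by
      intro a
      rw [pow_mul, ← χ_pow, ZMod.pow_card_sub_one_eq_one a.ne_zero, χ_one, one_pow]
    simp_rw [h1]
    rw [sum_const, card_univ, ZMod.card_units, nsmul_one]
  · obtain ⟨g, hg⟩ := exists_gen p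
    have h1 : χ p (g : ZMod p) ^ m * ∑ a : (ZMod p)ˣ, χ p (a : ZMod p) ^ m =
        ∑ a : (ZMod p)ˣ, χ p (a : ZMod p) ^ m := by
      rw [mul_sum, ← Equiv.sum_comp (Equiv.mulLeft g) fun a : (ZMod p)ˣ => χ p (a : ZMod p) ^ m]
      refine sum_congr rfl fun a _ => ?_
      rw [Equiv.coe_mulLeft, Units.val_mul, χ_mul, mul_pow]
    have h2 : (χ p (g : ZMod p) ^ m - 1) * ∑ a : (ZMod p)ˣ, χ p (a : ZMod p) ^ m = 0 := by
      rw [sub_mul, h1, one_mul, sub_self]
    exact (hg m h).mul_right_eq_zero.1 h2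

/-- The permanent for `x_i = i` is that for `x_i = i^p`. -/
lemma W_eq_W_χ : W (fun i : ZMod p => (i.val : R2 p)) = W (χ p) := by
  have h1 : ∀ i : ZMod p, ∃ t : R2 p, (i.val : R2 p) = χ p i + p * t := by
    intro i
    have h2 : (p : ℤ) ∣ (i.val : ℤ) - (i.val : ℤ) ^ p := by
      rw [← ZMod.intCast_zmod_eq_zero_iff_dvd]
      push_cast
      rw [ZMod.natCast_zmod_val, ZMod.pow_card, sub_self]
    obtain ⟨c, hc⟩ := h2
    refine ⟨(c : R2 p), ?_⟩
    have h3 := congrArg (Int.cast : ℤ → R2 p) hc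
    push_cast at h3
    rw [χ, ← h3]
    ring
  choose t ht using h1
  have hw : ∀ σ : Perm (ZMod p), w (fun i : ZMod p => (i.val : R2 p)) σ =
      w (χ p) σ + p * ∑ i, (t (σ i) - t i) * ∏ k ∈ univ.erase i, ent (χ p) k (σ k) := by
    intro σ
    have h3 : ∀ i, ent (fun i : ZMod p => (i.val : R2 p)) i (σ i) =
        ent (χ p) i (σ i) + p * (t (σ i) - t i) := by
      intro i
      unfold ent
      by_cases h : σ i = i
      · simp [h]
      · rw [if_neg h, if_neg h]
        linear_combination ht (σ i) - ht i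
    unfold w
    simp_rw [h3]
    exact prod_add_eps univ _ _ (p_mul_p p)
  unfold W
  simp_rw [hw]
  rw [sum_add_distrib, ← mul_sum]
  have h4 : π p (∑ σ : Perm (ZMod p), ∑ i, (t (σ i) - t i) *
      ∏ k ∈ univ.erase i, ent (χ p) k (σ k)) = 0 := by
    rw [map_sum]
    rw [← first_order fun i => π p (t i)]
    refine sum_congr rfl fun σ _ => ?_
    rw [map_sum]
    refine sum_congr rfl fun i _ => ?_
    rw [map_mul, map_sub, map_prod]
    congr 1
    refine prod_congr rfl fun k _ => ?_
    unfold ent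
    split_ifs
    · rw [map_one]
    · rw [map_sub, π_χ, π_χ]
  rw [mul_eq_zero_of_π p h4, add_zero]

/-- Only permutations whose number of moved points is divisible by `p - 1` count. -/
lemma W_χ : W (χ p) = ∑ σ : Perm (ZMod p),
    if (p - 1) ∣ #{i | σ i ≠ i} then w (χ p) σ else 0 := by
  have h1 : ∀ a : (ZMod p)ˣ, W (fun k => χ p (a : ZMod p) * χ p k) = W (χ p) := by
    intro a
    rw [← W_comp (Units.mulLeft a) (χ p)]
    congr 1
    funext k
    simp [χ_mul]
  have h2 : ((p - 1 : ℕ) : R2 p) * W (χ p) = ((p - 1 : ℕ) : R2 p) * ∑ σ : Perm (ZMod p),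
      if (p - 1) ∣ #{i | σ i ≠ i} then w (χ p) σ else 0 := by
    calc ((p - 1 : ℕ) : R2 p) * W (χ p) = ∑ a : (ZMod p)ˣ, W (fun k => χ p (a : ZMod p) * χ p k) := by
          simp_rw [h1]
          rw [sum_const, card_univ, ZMod.card_units, nsmul_eq_mul]
      _ = ∑ σ : Perm (ZMod p), (∑ a : (ZMod p)ˣ, χ p (a : ZMod p) ^ #{i | σ i ≠ i}) * w (χ p) σ := by
          unfold W
          rw [sum_comm]
          refine sum_congr rfl fun σ _ => ?_
          rw [sum_mul]
          refine sum_congr rfl fun a _ => ?_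
          rw [w_smul]
      _ = _ := by
          rw [mul_sum]
          refine sum_congr rfl fun σ _ => ?_
          rw [sum_units_pow]
          split_ifs <;> ring
  have h3 : IsUnit ((p - 1 : ℕ) : R2 p) := by
    apply isUnit_of_π
    rw [map_natCast, Nat.cast_sub hp.out.one_le, Nat.cast_one, ZMod.natCast_self, zero_sub]
    exact neg_ne_zero.2 one_ne_zero
  exact h3.mul_left_cancel h2

end Teich

/-! ### Permanents of matrices of rank two -/

section RankTwo

variable {β : Type*} [DecidableEq β] {R : Type*} [CommRing R]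

/-- Elementary symmetric functions. -/
def e (x : β → R) (r : ℕ) (s : Finset β) : R := ∑ C ∈ powersetCard r s, ∏ k ∈ C, x k

lemma e_zero (x : β → R) (s : Finset β) : e x 0 s = 1 := by
  simp [e]

lemma e_card (x : β → R) (s : Finset β) : e x #s s = ∏ k ∈ s, x k := by
  simp [e]

lemma e_insert (x : β → R) (r : ℕ) {q : β} {s : Finset β} (hq : q ∉ s) :
    e x (r + 1) (insert q s) = e x (r + 1) s + x q * e x r s := by
  unfold e
  rw [powersetCard_succ_insert hq, sum_union, sum_image, mul_sum]
  · congr 1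
    refine sum_congr rfl fun C hC => ?_
    rw [prod_insert fun h => hq ((mem_powersetCard.1 hC).1 h)]
  · intro C hC D hD h
    have hC' : q ∉ C := fun h => hq ((mem_powersetCard.1 hC).1 h)
    have hD' : q ∉ D := fun h => hq ((mem_powersetCard.1 hD).1 h)
    have := congrArg (fun F : Finset β => F.erase q) h
    simpa [erase_insert hC', erase_insert hD'] using this
  · rw [disjoint_left]
    intro C hC hC'
    obtain ⟨D, _, rfl⟩ := mem_image.1 hC'
    exact hq ((mem_powersetCard.1 hC).1 (mem_insert_self _ _))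

variable [Fintype β]

/-- The number of permutations which map `V` onto `C`. -/
def N (V C : Finset β) : ℕ := #{σ : Perm β | V.map σ.toEmbedding = C}

lemma exists_perm_map {V C : Finset β} (h : #V = #C) :
    ∃ σ : Perm β, V.map σ.toEmbedding = C := by
  have hVC : Fintype.card V = Fintype.card C := by simpa using h
  refine ⟨(Fintype.equivOfCardEq hVC).extendSubtype, ?_⟩
  apply eq_of_subset_of_card_le
  · intro x hx
    obtain ⟨y, hy, rfl⟩ := mem_map.1 hx
    exact (Fintype.equivOfCardEq hVC).extendSubtype_mem y hy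
  · rw [card_map, h]

lemma N_eq {V C : Finset β} (h : #V = #C) : N V C = N V V := by
  obtain ⟨σ, hσ⟩ := exists_perm_map h
  unfold N
  refine (card_bij (fun τ _ => σ * τ) ?_ ?_ ?_).symm
  · intro τ hτ
    rw [mem_filter] at hτ ⊢
    refine ⟨mem_univ _, ?_⟩
    have : (σ * τ).toEmbedding = τ.toEmbedding.trans σ.toEmbedding := rfl
    rw [this, ← map_map, hτ.2, hσ]
  · intro τ _ τ' _ h
    exact mul_left_cancel h
  · intro τ hτ
    rw [mem_filter] at hτ
    refine ⟨σ⁻¹ * τ, ?_, by simp⟩
    rw [mem_filter]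
    refine ⟨mem_univ _, ?_⟩
    have : (σ⁻¹ * τ).toEmbedding = τ.toEmbedding.trans σ.symm.toEmbedding := rfl
    rw [this, ← map_map, hτ.2, ← hσ, map_map]
    have : σ.toEmbedding.trans σ.symm.toEmbedding = Function.Embedding.refl _ := by
      ext x
      simp
    rw [this, map_refl]

lemma N_card (V : Finset β) : N V V = (#V).factorial * (Fintype.card β - #V).factorial := by
  have h1 : ∑ C ∈ powersetCard #V (univ : Finset β), N V C = (Fintype.card β).factorial := by
    rw [← Fintype.card_perm, ← card_univ]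
    unfold N
    refine (card_eq_sum_card_fiberwise fun σ _ => ?_).symm
    simp
  have h2 : ∑ C ∈ powersetCard #V (univ : Finset β), N V C =
      (Fintype.card β).choose #V * N V V := by
    rw [sum_congr rfl fun C hC => N_eq (mem_powersetCard.1 hC).2.symm, sum_const,
      card_powersetCard, card_univ, smul_eq_mul]
  have hV : #V ≤ Fintype.card β := card_le_univ V
  have h3 := Nat.choose_mul_factorial_mul_factorial hV
  have h4 : 0 < (Fintype.card β).choose #V := Nat.choose_pos hV
  apply Nat.eq_of_mul_eq_mul_left h4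
  rw [← h2, h1, ← h3, mul_assoc]

lemma sum_perm_prod (y : β → R) (V : Finset β) :
    ∑ σ : Perm β, ∏ k ∈ V, y (σ k) =
      (((#V).factorial * (Fintype.card β - #V).factorial : ℕ) : R) * e y #V univ := by
  have h1 : ∀ σ : Perm β, ∏ k ∈ V, y (σ k) =
      ∑ C ∈ powersetCard #V (univ : Finset β),
        if V.map σ.toEmbedding = C then ∏ k ∈ C, y k else 0 := by
    intro σ
    rw [sum_ite_eq, if_pos (by simp), prod_map]
    rfl
  simp_rw [h1]
  rw [sum_comm, e, mul_sum]
  refine sum_congr rfl fun C hC => ?_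
  rw [← N_card, ← N_eq (mem_powersetCard.1 hC).2.symm, N, ← sum_filter, sum_const, nsmul_eq_mul]

/-- The permanent of a matrix of rank two. -/
lemma sum_perm_sub (y z : β → R) :
    ∑ σ : Perm β, ∏ k, (y (σ k) - z k) = ∑ r ∈ range (Fintype.card β + 1),
      (-1) ^ (Fintype.card β - r) * ((r.factorial * (Fintype.card β - r).factorial : ℕ) : R) *
        (e y r univ * e z (Fintype.card β - r) univ) := by
  have h1 : ∀ σ : Perm β, ∏ k, (y (σ k) - z k) =
      ∑ V ∈ (univ : Finset β).powerset, (∏ k ∈ V, y (σ k)) * ∏ k ∈ univ \ V, - z k := by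
    intro σ
    rw [← prod_add]
    exact prod_congr rfl fun k _ => sub_eq_add_neg _ _
  simp_rw [h1]
  rw [sum_comm]
  have h2 : ∀ V ∈ (univ : Finset β).powerset,
      ∑ σ : Perm β, (∏ k ∈ V, y (σ k)) * ∏ k ∈ univ \ V, - z k =
        (((#V).factorial * (Fintype.card β - #V).factorial : ℕ) : R) * e y #V univ *
          ((-1) ^ (Fintype.card β - #V) * ∏ k ∈ Vᶜ, z k) := by
    intro V _
    rw [← sum_mul, sum_perm_prod, ← compl_eq_univ_sdiff]
    congr 1
    rw [prod_neg, card_compl]
  rw [sum_congr rfl h2, sum_powerset, card_univ]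
  refine sum_congr rfl fun r hr => ?_
  have hr' : r ≤ Fintype.card β := Nat.lt_succ_iff.1 (mem_range.1 hr)
  have h3 : e z (Fintype.card β - r) univ = ∑ V ∈ powersetCard r (univ : Finset β), ∏ k ∈ Vᶜ, z k := by
    unfold e
    symm
    refine sum_bij (fun V _ => Vᶜ) ?_ ?_ ?_ ?_
    · intro V hV
      rw [mem_powersetCard] at hV ⊢
      exact ⟨subset_univ _, by rw [card_compl, hV.2]⟩
    · intro V _ V' _ h
      exact compl_injective h
    · intro C hC
      rw [mem_powersetCard] at hC
      refine ⟨Cᶜ, ?_, compl_compl C⟩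
      rw [mem_powersetCard]
      refine ⟨subset_univ _, ?_⟩
      rw [card_compl, hC.2]
      omega
    · intro V _
      rfl
  rw [h3, mul_sum, mul_sum]
  refine sum_congr rfl fun V hV => ?_
  rw [(mem_powersetCard.1 hV).2]
  ring

end RankTwo

/-! ### The contribution of the permutations with one fixed point -/

section OneFixed

variable (p : ℕ) [hp : Fact p.Prime]

/-- The sum over the permutations which fix `q`. -/
def P (q : ZMod p) : R2 p :=
  ∑ σ : Perm (ZMod p), if σ q = q then ∏ k ∈ univ.erase q, (χ p (σ k) - χ p k) else 0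

lemma term_eq (h3 : 3 ≤ p) (σ : Perm (ZMod p)) :
    (if (p - 1) ∣ #{i | σ i ≠ i} then w (χ p) σ else 0) = (if σ = 1 then 1 else 0) +
      ∑ q, if σ q = q then ∏ k ∈ univ.erase q, (χ p (σ k) - χ p k) else 0 := by
  by_cases h1 : σ = 1
  · subst h1
    have h2 : ∑ q : ZMod p, (if (1 : Perm (ZMod p)) q = q then
        ∏ k ∈ univ.erase q, (χ p ((1 : Perm (ZMod p)) k) - χ p k) else 0) = 0 := by
      refine sum_eq_zero fun q _ => ?_
      rw [if_pos (Perm.one_apply q)]
      have h4 : q + 1 ∈ univ.erase q := by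
        rw [mem_erase]
        exact ⟨by simp, mem_univ _⟩
      exact prod_eq_zero h4 (by simp)
    rw [h2]
    simp [w, ent]
  · rw [if_neg h1, zero_add]
    have hcard : #{i | σ i ≠ i} + #{i | σ i = i} = p := by
      have h2 := card_filter_add_card_filter_not (s := (univ : Finset (ZMod p)))
        (fun i => σ i = i)
      rw [card_univ, ZMod.card] at h2
      rw [add_comm]
      exact h2
    have hpos : 0 < #{i | σ i ≠ i} := by
      rw [card_pos]
      by_contra h
      rw [not_nonempty_iff_eq_empty, filter_eq_empty_iff] at h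
      apply h1
      ext i
      have := h (mem_univ i)
      rw [not_not] at this
      rw [this]
      rfl
    have hvan : ∀ q q', q ≠ q' → σ q' = q' →
        ∏ k ∈ univ.erase q, (χ p (σ k) - χ p k) = 0 := by
      intro q q' hq hq'
      exact prod_eq_zero (mem_erase.2 ⟨hq.symm, mem_univ q'⟩) (by rw [hq', sub_self])
    by_cases h2 : #{i | σ i = i} = 1
    · obtain ⟨q, hq⟩ := card_eq_one.1 h2
      have hfix : ∀ i, σ i = i ↔ i = q := by
        intro i
        have := congrArg (fun s : Finset (ZMod p) => i ∈ s) hq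
        simpa using this
      rw [if_pos (by rw [show #{i | σ i ≠ i} = p - 1 by omega]), sum_eq_single q, if_pos ((hfix q).2 rfl)]
      · unfold w
        rw [← mul_prod_erase univ _ (mem_univ q)]
        rw [ent, if_pos ((hfix q).2 rfl), one_mul]
        refine prod_congr rfl fun k hk => ?_
        rw [ent, if_neg]
        rw [hfix]
        exact (mem_erase.1 hk).1
      · intro q' _ hq'
        rw [if_neg]
        rwa [hfix]
      · intro h
        exact absurd (mem_univ q) h
    · rw [if_neg]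
      · symm
        refine sum_eq_zero fun q _ => ?_
        by_cases hq : σ q = q
        · rw [if_pos hq]
          have h4 : 1 < #{i | σ i = i} := by
            have : 0 < #{i | σ i = i} := card_pos.2 ⟨q, by simpa using hq⟩
            omega
          obtain ⟨q', hq', hne⟩ := exists_mem_ne h4 q
          exact hvan q q' hne.symm (by simpa using hq')
        · rw [if_neg hq]
      · rintro ⟨c, hc⟩
        have hc0 : c ≠ 0 := by
          rintro rfl
          omega
        have hc1 : c ≠ 1 := by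
          rintro rfl
          omega
        have hc2 : 2 ≤ c := by omega
        have : (p - 1) * 2 ≤ (p - 1) * c := Nat.mul_le_mul_left _ hc2
        omega

lemma W_χ_eq (h3 : 3 ≤ p) : W (χ p) = 1 + ∑ q, P p q := by
  rw [W_χ]
  simp_rw [term_eq p h3]
  rw [sum_add_distrib, sum_ite_eq' univ (1 : Perm (ZMod p)), if_pos (mem_univ _), sum_comm]
  rfl

lemma P_eq (q : ZMod p) : P p q =
    ∑ τ : Perm {k : ZMod p // k ≠ q}, ∏ k, (χ p (τ k).1 - χ p k.1) := by
  unfold P
  rw [← sum_filter]
  symm
  refine sum_bij (fun τ _ => (Perm.subtypeEquivSubtypePerm (fun k : ZMod p => k ≠ q) τ).1) ?_ ?_ ?_ ?_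
  · intro τ _
    rw [mem_filter]
    refine ⟨mem_univ _, ?_⟩
    exact (Perm.subtypeEquivSubtypePerm (fun k : ZMod p => k ≠ q) τ).2 q (by simp)
  · intro τ _ τ' _ h
    exact (Perm.subtypeEquivSubtypePerm (fun k : ZMod p => k ≠ q)).injective (Subtype.ext h)
  · intro σ hσ
    rw [mem_filter] at hσ
    refine ⟨(Perm.subtypeEquivSubtypePerm (fun k : ZMod p => k ≠ q)).symm ⟨σ, ?_⟩, mem_univ _, ?_⟩
    · intro a ha
      rw [not_not] at ha
      rw [ha, hσ.2]
    · rw [Equiv.apply_symm_apply]
  · intro τ _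
    rw [prod_subtype (univ.erase q) (p := fun k : ZMod p => k ≠ q) (by simp)]
    refine prod_congr rfl fun k _ => ?_
    congr 2
    rw [Perm.subtypeEquivSubtypePerm_apply_of_mem τ k.2]

lemma e_subtype (q : ZMod p) (r : ℕ) :
    e (fun k : {k : ZMod p // k ≠ q} => χ p k.1) r univ = e (χ p) r (univ.erase q) := by
  have h : (univ.erase q : Finset (ZMod p)) =
      (univ : Finset {k : ZMod p // k ≠ q}).map (Function.Embedding.subtype _) := by
    ext k
    simp
  unfold e
  rw [h, powersetCard_map, sum_map]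
  refine sum_congr rfl fun C _ => ?_
  simp [prod_map]

lemma e_univ {r : ℕ} (hr : ¬ (p - 1) ∣ r) : e (χ p) r univ = 0 := by
  obtain ⟨g, hg⟩ := exists_gen p
  have h1 : χ p (g : ZMod p) ^ r * e (χ p) r univ = e (χ p) r univ := by
    unfold e
    rw [mul_sum]
    refine sum_bij (fun C _ => C.map (Units.mulLeft g).toEmbedding) ?_ ?_ ?_ ?_
    · intro C hC
      rw [mem_powersetCard] at hC ⊢
      exact ⟨subset_univ _, by rw [card_map, hC.2]⟩
    · intro C _ C' _ h
      exact map_injective _ h
    · intro C hC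
      rw [mem_powersetCard] at hC
      refine ⟨C.map (Units.mulLeft g).symm.toEmbedding, ?_, ?_⟩
      · rw [mem_powersetCard]
        exact ⟨subset_univ _, by rw [card_map, hC.2]⟩
      · rw [map_map]
        have : (Units.mulLeft g).symm.toEmbedding.trans (Units.mulLeft g).toEmbedding =
            Function.Embedding.refl (ZMod p) := by
          ext x
          exact (Units.mulLeft g).apply_symm_apply x
        rw [this, map_refl]
    · intro C hC
      rw [prod_map, ← (mem_powersetCard.1 hC).2, ← prod_const, ← prod_mul_distrib]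
      refine prod_congr rfl fun k _ => ?_
      simp [χ_mul]
  have h2 : (χ p (g : ZMod p) ^ r - 1) * e (χ p) r univ = 0 := by
    rw [sub_mul, h1, one_mul, sub_self]
  exact (hg r hr).mul_right_eq_zero.1 h2

lemma e_erase (q : ZMod p) {r : ℕ} (hr : r < p - 1) : e (χ p) r (univ.erase q) = (- χ p q) ^ r := by
  induction r with
  | zero => rw [e_zero, pow_zero]
  | succ r ih =>
    have h1 := e_insert (χ p) r (notMem_erase q univ)
    rw [insert_erase (mem_univ q), e_univ p (Nat.not_dvd_of_pos_of_lt (Nat.succ_pos r) hr),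
      ih (by omega)] at h1
    rw [pow_succ (- χ p q) r]
    linear_combination - h1

lemma card_erase_univ (q : ZMod p) : #(univ.erase q) = p - 1 := by
  rw [card_erase_of_mem (mem_univ q), card_univ, ZMod.card]

lemma e_erase_top (q : ZMod p) : e (χ p) (p - 1) (univ.erase q) = ∏ k ∈ univ.erase q, χ p k := by
  have h := e_card (χ p) (univ.erase q)
  rwa [card_erase_univ] at h

lemma χ_neg_one (h3 : 3 ≤ p) : χ p (-1) = -1 := by
  have h1 : χ p (-1) * χ p (-1) = 1 := by
    rw [← χ_mul, neg_one_mul, neg_neg, χ_one]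
  have h2 : (χ p (-1) - 1) * (χ p (-1) + 1) = 0 := by
    linear_combination h1
  have h4 : IsUnit (χ p (-1) - 1) := by
    apply isUnit_of_π
    rw [map_sub, π_χ, map_one]
    intro h
    have h5 : ((2 : ℕ) : ZMod p) = 0 := by
      push_cast
      linear_combination - h
    rw [ZMod.natCast_eq_zero_iff] at h5
    have := Nat.le_of_dvd (by norm_num) h5
    omega
  have h5 := h4.mul_right_eq_zero.1 h2
  linear_combination h5

lemma χ_prod (s : Finset (ZMod p)) : χ p (∏ k ∈ s, k) = ∏ k ∈ s, χ p k := by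
  induction s using Finset.induction_on with
  | empty => simp [χ_one]
  | insert k s hk ih => rw [prod_insert hk, prod_insert hk, χ_mul, ih]

lemma prod_erase_zero (h3 : 3 ≤ p) : ∏ k ∈ univ.erase (0 : ZMod p), χ p k = -1 := by
  rw [← χ_prod]
  have h : ∏ k ∈ univ.erase (0 : ZMod p), k = -1 := by
    have h1 := FiniteField.prod_univ_units_id_eq_neg_one (K := ZMod p)
    have h2 := congrArg (Units.val : (ZMod p)ˣ → ZMod p) h1
    rw [Units.coe_prod] at h2
    rw [Units.val_neg, Units.val_one] at h2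
    rw [← h2]
    symm
    refine prod_bij (fun u _ => (u : ZMod p)) ?_ ?_ ?_ ?_
    · intro u _
      exact mem_erase.2 ⟨u.ne_zero, mem_univ _⟩
    · intro u _ v _ h
      exact Units.ext h
    · intro k hk
      exact ⟨Units.mk0 k (mem_erase.1 hk).1, mem_univ _, rfl⟩
    · intro u _
      rfl
  rw [h, χ_neg_one p h3]

lemma prod_erase_ne {q : ZMod p} (hq : q ≠ 0) : ∏ k ∈ univ.erase q, χ p k = 0 :=
  prod_eq_zero (mem_erase.2 ⟨hq.symm, mem_univ 0⟩) (χ_zero p)

/-- The permanent for one fixed point. -/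
lemma P_formula (q : ZMod p) : P p q = ∑ r ∈ range (p - 1 + 1),
    (-1) ^ (p - 1 - r) * ((r.factorial * (p - 1 - r).factorial : ℕ) : R2 p) *
      (e (χ p) r (univ.erase q) * e (χ p) (p - 1 - r) (univ.erase q)) := by
  have hc : Fintype.card {k : ZMod p // k ≠ q} = p - 1 := by
    rw [Fintype.card_subtype_compl, Fintype.card_subtype_eq, ZMod.card]
  rw [P_eq, sum_perm_sub (fun k : {k : ZMod p // k ≠ q} => χ p k.1) (fun k => χ p k.1), hc]
  refine sum_congr rfl fun r _ => ?_
  rw [e_subtype, e_subtype]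

/-- The alternating sum. -/
def Z (n : ℕ) : R2 p :=
  ∑ r ∈ range (n + 1), (-1) ^ (n - r) * ((r.factorial * (n - r).factorial : ℕ) : R2 p)

lemma alt_sum {R : Type*} [CommRing R] (a : ℕ → R) (m : ℕ) :
    ∑ r ∈ range (m + 1), (-1) ^ r * (a r + a (r + 1)) = a 0 + (-1) ^ m * a (m + 1) := by
  induction m with
  | zero => simp
  | succ m ih =>
    rw [sum_range_succ, ih, pow_succ]
    ring

lemma Z_formula {n : ℕ} (hn : Even n) : ((n + 2 : ℕ) : R2 p) * Z p n = 2 * ((n + 1).factorial : R2 p) := by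
  have h := alt_sum (fun r => ((r.factorial * (n + 1 - r).factorial : ℕ) : R2 p)) n
  rw [hn.neg_one_pow] at h
  simp only [Nat.sub_zero, Nat.sub_self, Nat.factorial_zero, one_mul, mul_one] at h
  rw [← two_mul] at h
  rw [← h, Z, mul_sum]
  refine sum_congr rfl fun r hr => ?_
  have hr' : r ≤ n := Nat.lt_succ_iff.1 (mem_range.1 hr)
  have hs : (-1 : R2 p) ^ (n - r) = (-1) ^ r := by
    have h1 : (-1 : R2 p) ^ (n - r) * (-1) ^ r = 1 := by
      rw [← pow_add, Nat.sub_add_cancel hr', hn.neg_one_pow]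
    have h2 : (-1 : R2 p) ^ r * (-1) ^ r = 1 := by
      rw [← mul_pow]
      simp
    calc (-1 : R2 p) ^ (n - r) = (-1 : R2 p) ^ (n - r) * ((-1 : R2 p) ^ r * (-1) ^ r) := by
          rw [h2, mul_one]
      _ = (-1 : R2 p) ^ (n - r) * (-1) ^ r * (-1) ^ r := by ring
      _ = (-1) ^ r := by rw [h1, one_mul]
  have hf : r.factorial * (n + 1 - r).factorial + (r + 1).factorial * (n + 1 - (r + 1)).factorial =
      (n + 2) * (r.factorial * (n - r).factorial) := by
    have h1 : n + 1 - r = (n - r) + 1 := by omega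
    have h2 : n + 1 - (r + 1) = n - r := by omega
    rw [h1, h2, Nat.factorial_succ, Nat.factorial_succ]
    have h3 : n + 2 = (n - r + 1) + (r + 1) := by omega
    rw [h3]
    ring
  have hf' := congrArg (Nat.cast : ℕ → R2 p) hf
  rw [Nat.cast_add, Nat.cast_mul (n + 2)] at hf'
  rw [hs, hf']
  ring

lemma P_ne (h3 : 3 ≤ p) {q : ZMod p} (hq : q ≠ 0) :
    P p q = Z p (p - 1) - 2 * ((p - 1).factorial : R2 p) := by
  have heven : Even (p - 1) := hp.out.even_sub_one (by omega)
  obtain ⟨m, hm⟩ : ∃ m, p - 1 = m + 2 := ⟨p - 3, by omega⟩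
  have hpow : (- χ p q) ^ (p - 1) = 1 := by
    rw [heven.neg_pow, ← χ_pow, ZMod.pow_card_sub_one_eq_one hq, χ_one]
  have hterm : ∀ r ∈ range (m + 1),
      (-1) ^ (p - 1 - (r + 1)) * (((r + 1).factorial * (p - 1 - (r + 1)).factorial : ℕ) : R2 p) *
        (e (χ p) (r + 1) (univ.erase q) * e (χ p) (p - 1 - (r + 1)) (univ.erase q)) =
      (-1) ^ (p - 1 - (r + 1)) * (((r + 1).factorial * (p - 1 - (r + 1)).factorial : ℕ) : R2 p) := by
    intro r hr
    rw [mem_range] at hr
    rw [e_erase p q (show r + 1 < p - 1 by omega), e_erase p q (show p - 1 - (r + 1) < p - 1 by omega),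
      ← pow_add, show r + 1 + (p - 1 - (r + 1)) = p - 1 by omega, hpow, mul_one]
  have hP := P_formula p q
  have hZ : Z p (p - 1) = ∑ r ∈ range (p - 1 + 1),
    (-1) ^ (p - 1 - r) * ((r.factorial * (p - 1 - r).factorial : ℕ) : R2 p) := rfl
  rw [show p - 1 + 1 = m + 1 + 1 + 1 by omega] at hP hZ
  rw [sum_range_succ, sum_range_succ'] at hP hZ
  rw [hP, hZ]
  rw [sum_congr rfl hterm]
  rw [show m + 1 + 1 = p - 1 by omega, Nat.sub_self, Nat.sub_zero, e_erase_top, prod_erase_ne p hq,
    heven.neg_one_pow]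
  simp only [Nat.factorial_zero, one_mul, mul_one, mul_zero, zero_mul, add_zero, pow_zero]
  ring

lemma P_zero (h3 : 3 ≤ p) : P p 0 = - 2 * ((p - 1).factorial : R2 p) := by
  have heven : Even (p - 1) := hp.out.even_sub_one (by omega)
  obtain ⟨m, hm⟩ : ∃ m, p - 1 = m + 2 := ⟨p - 3, by omega⟩
  have hterm : ∀ r ∈ range (m + 1),
      (-1) ^ (p - 1 - (r + 1)) * (((r + 1).factorial * (p - 1 - (r + 1)).factorial : ℕ) : R2 p) *
        (e (χ p) (r + 1) (univ.erase 0) * e (χ p) (p - 1 - (r + 1)) (univ.erase 0)) = 0 := by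
    intro r hr
    rw [mem_range] at hr
    rw [e_erase p 0 (show r + 1 < p - 1 by omega), χ_zero, neg_zero, zero_pow (Nat.succ_ne_zero r),
      zero_mul, mul_zero]
  have hP := P_formula p 0
  rw [show p - 1 + 1 = m + 1 + 1 + 1 by omega] at hP
  rw [sum_range_succ, sum_range_succ', sum_congr rfl hterm, sum_const_zero] at hP
  rw [hP]
  rw [show m + 1 + 1 = p - 1 by omega, Nat.sub_self, Nat.sub_zero, e_erase_top,
    prod_erase_zero p h3, heven.neg_one_pow, e_zero]
  simp only [Nat.factorial_zero, one_mul, mul_one, pow_zero]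
  ring

lemma factorial_eq : (p.factorial : R2 p) = - p := by
  have h1 : π p (((p - 1).factorial : ℕ) + 1 : R2 p) = 0 := by
    rw [map_add, map_natCast, map_one, ZMod.wilsons_lemma]
    ring
  have h2 := mul_eq_zero_of_π p h1
  rw [← Nat.mul_factorial_pred hp.out.ne_zero, Nat.cast_mul]
  linear_combination h2

lemma W_χ_value (h3 : 3 ≤ p) : W (χ p) = 4 * p + 1 := by
  have heven : Even (p - 1) := hp.out.even_sub_one (by omega)
  have h1 : ∑ q, P p q = - 2 * ((p - 1).factorial : R2 p) +
      ((p - 1 : ℕ) : R2 p) * (Z p (p - 1) - 2 * ((p - 1).factorial : R2 p)) := by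
    rw [← add_sum_erase univ _ (mem_univ (0 : ZMod p)), P_zero p h3,
      sum_congr rfl fun q hq => P_ne p h3 (mem_erase.1 hq).1, sum_const, card_erase_univ,
      nsmul_eq_mul]
  have hZ := Z_formula p heven
  have hsub : ((p - 1 : ℕ) : R2 p) = p - 1 := by
    rw [Nat.cast_sub hp.out.one_le, Nat.cast_one]
  rw [show p - 1 + 2 = p + 1 by omega, show p - 1 + 1 = p by omega, factorial_eq] at hZ
  push_cast at hZ
  have hfac : (p : R2 p) * ((p - 1).factorial : R2 p) = - p := by
    rw [← factorial_eq, ← Nat.mul_factorial_pred hp.out.ne_zero, Nat.cast_mul]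
  rw [W_χ_eq p h3, h1, hsub]
  have hpp := p_mul_p p
  linear_combination ((p : R2 p) - 1) * (1 - p) * hZ - 2 * hfac +
    (2 * (p : R2 p) - 4 + (p - 1) * Z p (p - 1)) * hpp

end OneFixed

/-! ### The theorem -/

/-- The matrix of the differences of the indices, with ones on the diagonal. -/
def A (n : ℕ) : Matrix (Fin n) (Fin n) ℤ :=
  Matrix.of fun i l => (i : ℤ) - (l : ℤ) + if i = l then 1 else 0

lemma permanent_A (p : ℕ) [hp : Fact p.Prime] :
    (((A p).permanent : ℤ) : R2 p) = W (fun i : ZMod p => (i.val : R2 p)) := by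
  have hinj : Function.Injective fun k : ZMod p => (⟨k.val, ZMod.val_lt k⟩ : Fin p) := by
    intro a b h
    exact ZMod.val_injective p (Fin.mk.inj h)
  have hbij : Function.Bijective fun k : ZMod p => (⟨k.val, ZMod.val_lt k⟩ : Fin p) := by
    rw [Fintype.bijective_iff_injective_and_card]
    exact ⟨hinj, by rw [ZMod.card, Fintype.card_fin]⟩
  let φ : ZMod p ≃ Fin p := Equiv.ofBijective _ hbij
  have hφ : ∀ k, ((φ k : Fin p) : ℕ) = k.val := fun k => rfl
  unfold Matrix.permanent W
  push_cast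
  rw [← Equiv.sum_comp (Equiv.permCongr φ)]
  refine sum_congr rfl fun σ _ => ?_
  unfold w
  rw [← Equiv.prod_comp φ]
  refine prod_congr rfl fun k _ => ?_
  rw [Equiv.permCongr_apply, Equiv.symm_apply_apply, A, Matrix.of_apply, ent]
  by_cases h : σ k = k
  · rw [if_pos h, if_pos (by rw [h]), h]
    simp
  · rw [if_neg h, if_neg (fun h' => h (φ.injective h'))]
    push_cast
    rw [hφ, hφ, add_zero]

/-- For an odd prime `p` the permanent of the matrix `[i - l + δ_{il}]` of order `p` is
congruent to `4 p + 1` modulo `p²`. -/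
theorem result (p : ℕ) (hp : p.Prime) (hodd : Odd p) :
    (A p).permanent ≡ 4 * p + 1 [ZMOD p ^ 2] := by
  have : Fact p.Prime := ⟨hp⟩
  have h3 : 3 ≤ p := by
    have h2 := hp.two_le
    obtain ⟨k, hk⟩ := hodd
    omega
  have h := permanent_A p
  rw [W_eq_W_χ, W_χ_value p h3] at h
  have h4 : (((A p).permanent : ℤ) : ZMod (p ^ 2)) = ((4 * p + 1 : ℤ) : ZMod (p ^ 2)) := by
    rw [h]
    push_cast
    rfl
  rw [ZMod.intCast_eq_intCast_iff] at h4
  exact_mod_cast h4

end Pool.Agent.Results.MP_73edb1_nt.PermanentModSq
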